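import Pool.Agent.H85R3.MinEx1

/-!
# Products of spheres and flat minimal tori with a very small eigenvalue

Adapted from `Pool.Agent.H85R3.MinEx2`, `MinEx3`, `MinEx4` (the Pythagorean triple `3, 4, 5` is
replaced by the triples `p, q, 2 p - 1`, of which there are infinitely many).
-/

set_option autoImplicit false

open scoped ContDiff RealInnerProductSpace Topology ComplexConjugate

namespace Pool.Agent.Y767.MT

open Pool.Agent.H85R3.Minimal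

/-- A Pythagorean triple `p, q, r` with `r = 2 p - 1` and `p < q`. -/
class Trip where
  /-- first leg -/
  p : ℕ
  /-- second leg -/
  q : ℕ
  /-- hypotenuse -/
  r : ℕ
  sq : p ^ 2 + q ^ 2 = r ^ 2
  two : r + 1 = 2 * p
  lt : p < q

/-- There are such triples with arbitrarily large entries. -/
theorem exists_trip (n : ℕ) : ∃ T : Trip, n ≤ T.r := by
  have key : ∀ n : ℕ, ∃ p q : ℕ, n + 3 ≤ p ∧ p < q ∧ p ^ 2 + q ^ 2 + 4 * p = 4 * p ^ 2 + 1 := by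
    intro n
    induction n with
    | zero => exact ⟨3, 4, by norm_num, by norm_num, by norm_num⟩
    | succ n ih =>
      obtain ⟨p, q, h1, h2, h3⟩ := ih
      obtain ⟨p', hp'⟩ : ∃ p', p' + 4 = 7 * p + 4 * q := ⟨7 * p + 4 * q - 4, by omega⟩
      obtain ⟨q', hq'⟩ : ∃ q', q' + 8 = 12 * p + 7 * q := ⟨12 * p + 7 * q - 8, by omega⟩
      refine ⟨p', q', by omega, by omega, ?_⟩
      have e1 : (p' : ℤ) = 7 * p + 4 * q - 4 := by omega
      have e2 : (q' : ℤ) = 12 * p + 7 * q - 8 := by omega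
      have e3 : (p : ℤ) ^ 2 + q ^ 2 + 4 * p = 4 * p ^ 2 + 1 := by exact_mod_cast h3
      have e4 : (p' : ℤ) ^ 2 + q' ^ 2 + 4 * p' = 4 * p' ^ 2 + 1 := by
        rw [e1, e2]
        linear_combination e3
      exact_mod_cast e4
  obtain ⟨p, q, h1, h2, h3⟩ := key n
  refine ⟨⟨p, q, 2 * p - 1, ?_, by omega, h2⟩, ?_⟩
  · obtain ⟨r, hr⟩ : ∃ r, r + 1 = 2 * p := ⟨2 * p - 1, by omega⟩
    have hr' : 2 * p - 1 = r := by omega
    rw [hr']
    have e1 : (r : ℤ) = 2 * p - 1 := by omega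
    have e3 : (p : ℤ) ^ 2 + q ^ 2 + 4 * p = 4 * p ^ 2 + 1 := by exact_mod_cast h3
    have e4 : (p : ℤ) ^ 2 + q ^ 2 = r ^ 2 := by
      rw [e1]
      linear_combination e3
    exact_mod_cast e4
  · show n ≤ 2 * p - 1
    omega

variable [T : Trip]

theorem q_pos : (0 : ℝ) < (T.q : ℝ) := by
  have := T.lt
  exact_mod_cast (by omega : 0 < T.q)

theorem r_pos : (0 : ℝ) < (T.r : ℝ) := by
  have h1 := T.lt
  have h2 := T.two
  have h3 := T.sq
  have : 0 < T.r := by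
    rcases Nat.eq_zero_or_pos T.r with h | h
    · omega
    · exact h
  exact_mod_cast this

theorem qp_pos : (0 : ℝ) < (T.q : ℝ) ^ 2 - (T.p : ℝ) ^ 2 := by
  have h1 : (T.p : ℝ) < (T.q : ℝ) := by exact_mod_cast T.lt
  have h2 : (0 : ℝ) ≤ (T.p : ℝ) := Nat.cast_nonneg _
  nlinarith

theorem r_sq : (T.r : ℝ) ^ 2 = (T.p : ℝ) ^ 2 + (T.q : ℝ) ^ 2 := by
  exact_mod_cast T.sq.symm



/-- The dimension of the product, as a real number. -/
noncomputable def dd (a : ℕ) : ℝ := (a : ℝ) + 2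
/-- The radius of the sphere factor. -/
noncomputable def cR (a : ℕ) : ℝ := √((a : ℝ) / dd a)
/-- The radius of the first circle. -/
noncomputable def cA (a : ℕ) : ℝ := √(((T.q : ℝ) ^ 2 - (T.p : ℝ) ^ 2) / ((T.q : ℝ) ^ 2 * dd a))
/-- The radius of the second and the third circle. -/
noncomputable def cB (a : ℕ) : ℝ := √((T.r : ℝ) ^ 2 / (2 * (T.q : ℝ) ^ 2 * dd a))
/-- The frequency. -/
noncomputable def ka (a : ℕ) : ℝ := √(dd a) / (T.r : ℝ)

theorem dd_pos (a : ℕ) : 0 < dd a := by unfold dd; positivity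

theorem cR_sq (a : ℕ) : cR a ^ 2 = (a : ℝ) / dd a :=
  Real.sq_sqrt (div_nonneg (Nat.cast_nonneg a) (dd_pos a).le)
theorem cA_sq (a : ℕ) :
    cA a ^ 2 = ((T.q : ℝ) ^ 2 - (T.p : ℝ) ^ 2) / ((T.q : ℝ) ^ 2 * dd a) :=
  Real.sq_sqrt (div_nonneg qp_pos.le (mul_nonneg (sq_nonneg _) (dd_pos a).le))
theorem cB_sq (a : ℕ) : cB a ^ 2 = (T.r : ℝ) ^ 2 / (2 * (T.q : ℝ) ^ 2 * dd a) :=
  Real.sq_sqrt (div_nonneg (sq_nonneg _) (mul_nonneg (by positivity) (dd_pos a).le))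
theorem ka_sq (a : ℕ) : ka a ^ 2 = dd a / (T.r : ℝ) ^ 2 := by
  unfold ka
  rw [div_pow, Real.sq_sqrt (dd_pos a).le]

theorem cR_pos {a : ℕ} (ha : 1 ≤ a) : 0 < cR a :=
  Real.sqrt_pos.mpr (div_pos (by exact_mod_cast ha) (dd_pos a))
theorem cA_pos (a : ℕ) : 0 < cA a := Real.sqrt_pos.mpr
  (div_pos qp_pos (mul_pos (pow_pos q_pos 2) (dd_pos a)))
theorem cB_pos (a : ℕ) : 0 < cB a := Real.sqrt_pos.mpr
  (div_pos (pow_pos r_pos 2) (mul_pos (mul_pos two_pos (pow_pos q_pos 2)) (dd_pos a)))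
theorem ka_pos (a : ℕ) : 0 < ka a := div_pos (Real.sqrt_pos.mpr (dd_pos a)) r_pos

/-- The point of the product with given coordinates. -/
noncomputable def pt (a : ℕ) (x : E (a + 1)) (w₁ w₂ : ℂ) : E (a + 1 + 6) :=
  mkV a (cR a • x) (cA a * w₁ ^ T.r) (cB a * (w₁ ^ T.p * w₂)) (cB a * (w₁ ^ T.p * conj w₂))

/-- The product of the sphere and the flat torus. -/
def Mset (a : ℕ) : Set (E (a + 1 + 6)) :=
  {p | ∃ (x : E (a + 1)) (w₁ w₂ : ℂ), ‖x‖ = 1 ∧ ‖w₁‖ = 1 ∧ ‖w₂‖ = 1 ∧ p = pt a x w₁ w₂}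

variable {a : ℕ}

/-- The linear part of the parametrisation of the sphere. -/
noncomputable def Tm (b : OrthonormalBasis (Fin (a + 1)) ℝ (E (a + 1))) (y : E (a + 2)) : E (a + 1) :=
  ∑ i : Fin a, y (Fin.castAdd 2 i) • b i.castSucc

/-- The square of the norm of the unnormalised vector. -/
noncomputable def qf (y : E (a + 2)) : ℝ := ∑ i : Fin a, y (Fin.castAdd 2 i) ^ 2 + cR a ^ 2

/-- The parametrisation of the sphere factor. -/
noncomputable def sph (b : OrthonormalBasis (Fin (a + 1)) ℝ (E (a + 1))) (y : E (a + 2)) : E (a + 1) :=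
  (√(qf y))⁻¹ • (Tm b y + cR a • b (Fin.last a))

/-- The parametrisation of the first circle factor. -/
noncomputable def u1 (w₁ : ℂ) (y : E (a + 2)) : ℂ :=
  w₁ * Complex.exp ((ka a * y (Fin.natAdd a 0) : ℝ) * Complex.I)
/-- The parametrisation of the second circle factor. -/
noncomputable def u2 (w₂ : ℂ) (y : E (a + 2)) : ℂ :=
  w₂ * Complex.exp (((T.q : ℝ) * ka a * y (Fin.natAdd a 1) : ℝ) * Complex.I)

/-- The parametrisation. -/
noncomputable def par (b : OrthonormalBasis (Fin (a + 1)) ℝ (E (a + 1))) (w₁ w₂ : ℂ)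
    (y : E (a + 2)) : E (a + 1 + 6) :=
  pt a (sph b y) (u1 w₁ y) (u2 w₂ y)

theorem qf_pos (ha : 1 ≤ a) (y : E (a + 2)) : 0 < qf y := by
  unfold qf
  have := cR_pos ha
  have h : 0 ≤ ∑ i : Fin a, y (Fin.castAdd 2 i) ^ 2 := Finset.sum_nonneg fun i _ => sq_nonneg _
  positivity

theorem norm_Tm_sq (b : OrthonormalBasis (Fin (a + 1)) ℝ (E (a + 1))) (y : E (a + 2)) :
    ‖Tm b y + cR a • b (Fin.last a)‖ ^ 2 = qf y := by
  have h : Tm b y + cR a • b (Fin.last a) =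
      ∑ i : Fin (a + 1), (Fin.snoc (fun i : Fin a => y (Fin.castAdd 2 i)) (cR a) :
        Fin (a + 1) → ℝ) i • b i := by
    rw [Fin.sum_univ_castSucc]
    simp [Tm]
  rw [h, ← real_inner_self_eq_norm_sq, sum_inner]
  simp only [inner_smul_left, b.orthonormal.inner_right_fintype]
  rw [Fin.sum_univ_castSucc]
  simp [qf, sq]

theorem norm_sph (ha : 1 ≤ a) (b : OrthonormalBasis (Fin (a + 1)) ℝ (E (a + 1)))
    (y : E (a + 2)) : ‖sph b y‖ = 1 := by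
  have h := qf_pos ha y
  unfold sph
  have h1 : ‖Tm b y + cR a • b (Fin.last a)‖ = √(qf y) := by
    rw [← norm_Tm_sq b y, Real.sqrt_sq (norm_nonneg _)]
  rw [norm_smul, h1, norm_inv, Real.norm_of_nonneg (Real.sqrt_nonneg _)]
  exact inv_mul_cancel₀ (Real.sqrt_pos.mpr h).ne'

theorem norm_u1 {w₁ : ℂ} (h : ‖w₁‖ = 1) (y : E (a + 2)) : ‖u1 w₁ y‖ = 1 := by
  unfold u1
  rw [norm_mul, h, Complex.norm_exp_ofReal_mul_I, one_mul]
theorem norm_u2 {w₂ : ℂ} (h : ‖w₂‖ = 1) (y : E (a + 2)) : ‖u2 w₂ y‖ = 1 := by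
  unfold u2
  rw [norm_mul, h, Complex.norm_exp_ofReal_mul_I, one_mul]

theorem par_mem (ha : 1 ≤ a) (b : OrthonormalBasis (Fin (a + 1)) ℝ (E (a + 1))) {w₁ w₂ : ℂ}
    (h₁ : ‖w₁‖ = 1) (h₂ : ‖w₂‖ = 1) (y : E (a + 2)) : par b w₁ w₂ y ∈ Mset a :=
  ⟨_, _, _, norm_sph ha b y, norm_u1 h₁ y, norm_u2 h₂ y, rfl⟩

/-! ### Smoothness -/

theorem contDiff_coord (i : Fin (a + 2)) : ContDiff ℝ ∞ (fun y : E (a + 2) => y i) :=
  (EuclideanSpace.proj (𝕜 := ℝ) i).contDiff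

theorem contDiff_qf : ContDiff ℝ ∞ (qf : E (a + 2) → ℝ) := by
  have h : ContDiff ℝ ∞ (fun y : E (a + 2) => ∑ i : Fin a, y (Fin.castAdd 2 i) ^ 2) :=
    ContDiff.sum fun i _ => (contDiff_coord (Fin.castAdd 2 i)).pow 2
  exact h.add contDiff_const

theorem contDiff_Tm (b : OrthonormalBasis (Fin (a + 1)) ℝ (E (a + 1))) : ContDiff ℝ ∞ (Tm b) := by
  unfold Tm
  exact ContDiff.sum fun i _ => (contDiff_coord (Fin.castAdd 2 i)).smul contDiff_const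

theorem contDiff_sph (ha : 1 ≤ a) (b : OrthonormalBasis (Fin (a + 1)) ℝ (E (a + 1))) :
    ContDiff ℝ ∞ (sph b) := by
  have h1 : ContDiff ℝ ∞ (fun y : E (a + 2) => (√(qf y))⁻¹) :=
    ContDiff.inv (contDiff_qf.sqrt fun y => (qf_pos ha y).ne') fun y =>
      (Real.sqrt_pos.mpr (qf_pos ha y)).ne'
  have h2 : ContDiff ℝ ∞ (fun y : E (a + 2) => Tm b y + cR a • b (Fin.last a)) :=
    (contDiff_Tm b).add contDiff_const
  exact h1.smul h2

theorem contDiff_u1 (w₁ : ℂ) : ContDiff ℝ ∞ (u1 w₁ : E (a + 2) → ℂ) := by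
  unfold u1
  refine contDiff_const.mul (ContDiff.cexp (ContDiff.mul ?_ contDiff_const))
  exact Complex.ofRealCLM.contDiff.comp (contDiff_const.mul (contDiff_coord _))

theorem contDiff_u2 (w₂ : ℂ) : ContDiff ℝ ∞ (u2 w₂ : E (a + 2) → ℂ) := by
  unfold u2
  refine contDiff_const.mul (ContDiff.cexp (ContDiff.mul ?_ contDiff_const))
  exact Complex.ofRealCLM.contDiff.comp (contDiff_const.mul (contDiff_coord _))

theorem contDiff_conj {n : WithTop ℕ∞} : ContDiff ℝ n (fun z : ℂ => conj z) :=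
  Complex.conjCLE.contDiff

theorem contDiff_mkV {X : Type*} [NormedAddCommGroup X] [NormedSpace ℝ X] {n : WithTop ℕ∞}
    {f : X → E (a + 1)} {g₀ g₁ g₂ : X → ℂ} (hf : ContDiff ℝ n f) (h₀ : ContDiff ℝ n g₀)
    (h₁ : ContDiff ℝ n g₁) (h₂ : ContDiff ℝ n g₂) :
    ContDiff ℝ n (fun y => mkV a (f y) (g₀ y) (g₁ y) (g₂ y)) :=
  (mkL a).contDiff.comp (hf.prodMk (h₀.prodMk (h₁.prodMk h₂)))

theorem contDiff_pt {X : Type*} [NormedAddCommGroup X] [NormedSpace ℝ X]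
    {f : X → E (a + 1)} {g₁ g₂ : X → ℂ} (hf : ContDiff ℝ ∞ f)
    (h₁ : ContDiff ℝ ∞ g₁) (h₂ : ContDiff ℝ ∞ g₂) :
    ContDiff ℝ ∞ (fun y => pt a (f y) (g₁ y) (g₂ y)) := by
  unfold pt
  exact contDiff_mkV (hf.const_smul _) (contDiff_const.mul (h₁.pow T.r))
    (contDiff_const.mul ((h₁.pow T.p).mul h₂))
    (contDiff_const.mul ((h₁.pow T.p).mul (contDiff_conj.comp h₂)))

theorem contDiff_par (ha : 1 ≤ a) (b : OrthonormalBasis (Fin (a + 1)) ℝ (E (a + 1)))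
    (w₁ w₂ : ℂ) : ContDiff ℝ ∞ (par b w₁ w₂) := by
  unfold par
  exact contDiff_pt (contDiff_sph ha b) (contDiff_u1 w₁) (contDiff_u2 w₂)

/-! ### Derivatives along curves -/

theorem hasDerivAt_mkV {f : ℝ → E (a + 1)} {g₀ g₁ g₂ : ℝ → ℂ} {f' : E (a + 1)}
    {g₀' g₁' g₂' : ℂ} {t : ℝ} (hf : HasDerivAt f f' t) (h₀ : HasDerivAt g₀ g₀' t)
    (h₁ : HasDerivAt g₁ g₁' t) (h₂ : HasDerivAt g₂ g₂' t) :
    HasDerivAt (fun s => mkV a (f s) (g₀ s) (g₁ s) (g₂ s)) (mkV a f' g₀' g₁' g₂') t :=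
  (mkL a).hasFDerivAt.comp_hasDerivAt t (hf.prodMk (h₀.prodMk (h₁.prodMk h₂)))

theorem hasDerivAt_osc (Z : ℂ) (om t : ℝ) :
    HasDerivAt (fun s : ℝ => Z * Complex.exp ((om * s : ℝ) * Complex.I))
      (((om : ℂ) * Complex.I * Z) * Complex.exp ((om * t : ℝ) * Complex.I)) t := by
  have h1 : HasDerivAt (fun s : ℝ => ((om * s : ℝ) : ℂ)) (om : ℂ) t := by
    have := ((hasDerivAt_id t).const_mul om).ofReal_comp
    simpa using this
  have h2 := ((h1.mul_const Complex.I).cexp).const_mul Z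
  refine h2.congr_deriv ?_
  push_cast
  ring

/-- A curve in the torus factor. -/
noncomputable def osc (a : ℕ) (X : E (a + 1)) (Z₀ Z₁ Z₂ : ℂ) (o₀ o₁ o₂ : ℝ) (s : ℝ) :
    E (a + 1 + 6) :=
  mkV a X (Z₀ * Complex.exp ((o₀ * s : ℝ) * Complex.I))
    (Z₁ * Complex.exp ((o₁ * s : ℝ) * Complex.I)) (Z₂ * Complex.exp ((o₂ * s : ℝ) * Complex.I))

theorem hasDerivAt_oscC (X : E (a + 1)) (Z₀ Z₁ Z₂ : ℂ) (o₀ o₁ o₂ t : ℝ) :
    HasDerivAt (osc a X Z₀ Z₁ Z₂ o₀ o₁ o₂)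
      (osc a 0 (o₀ * Complex.I * Z₀) (o₁ * Complex.I * Z₁) (o₂ * Complex.I * Z₂) o₀ o₁ o₂ t) t :=
  hasDerivAt_mkV (hasDerivAt_const t X) (hasDerivAt_osc Z₀ o₀ t) (hasDerivAt_osc Z₁ o₁ t)
    (hasDerivAt_osc Z₂ o₂ t)

theorem osc_zero (X : E (a + 1)) (Z₀ Z₁ Z₂ : ℂ) (o₀ o₁ o₂ : ℝ) :
    osc a X Z₀ Z₁ Z₂ o₀ o₁ o₂ 0 = mkV a X Z₀ Z₁ Z₂ := by
  simp [osc]

/-- The scaling function of the central projection. -/
noncomputable def rho (R s : ℝ) : ℝ := (√(s ^ 2 + R ^ 2))⁻¹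

theorem hasDerivAt_rho {R : ℝ} (hR : 0 < R) (t : ℝ) :
    HasDerivAt (rho R) (-(t * rho R t ^ 3)) t := by
  have h0 : 0 < t ^ 2 + R ^ 2 := by positivity
  have h1 : HasDerivAt (fun s : ℝ => s ^ 2 + R ^ 2) (2 * t) t := by
    simpa using (hasDerivAt_pow 2 t).add_const (R ^ 2)
  have h2 := (h1.sqrt h0.ne').inv (Real.sqrt_pos.mpr h0).ne'
  refine h2.congr_deriv ?_
  unfold rho
  have h3 : √(t ^ 2 + R ^ 2) ≠ 0 := (Real.sqrt_pos.mpr h0).ne'
  field_simp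

theorem rho_zero {R : ℝ} (hR : 0 < R) : rho R 0 = R⁻¹ := by
  unfold rho
  simp [Real.sqrt_sq hR.le]

/-- The curve on the sphere factor. -/
theorem hasDerivAt_sphC {R : ℝ} (hR : 0 < R) (v n : E (a + 1)) (t : ℝ) :
    HasDerivAt (fun s : ℝ => R • (rho R s • (s • v + R • n)))
      (R • (-(t * rho R t ^ 3) • (t • v + R • n) + rho R t • v)) t := by
  have h1 : HasDerivAt (fun s : ℝ => s • v + R • n) v t := by
    simpa using ((hasDerivAt_id t).smul_const v).add_const (R • n)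
  have h2 := ((hasDerivAt_rho hR t).smul h1).const_smul R
  refine h2.congr_deriv ?_
  rw [add_comm (rho R t • v)]

theorem hasDerivAt_sphC' {R : ℝ} (hR : 0 < R) (v n : E (a + 1)) :
    HasDerivAt (fun t : ℝ => R • (-(t * rho R t ^ 3) • (t • v + R • n) + rho R t • v))
      (-(R⁻¹ • n)) 0 := by
  have h1 : HasDerivAt (fun s : ℝ => s • v + R • n) v 0 := by
    simpa using ((hasDerivAt_id (0 : ℝ)).smul_const v).add_const (R • n)
  have h2 : HasDerivAt (fun t : ℝ => -(t * rho R t ^ 3)) (-(R⁻¹ ^ 3)) 0 := by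
    have := ((hasDerivAt_id (0 : ℝ)).mul ((hasDerivAt_rho hR 0).pow 3)).neg
    refine this.congr_deriv ?_
    simp [rho_zero hR]
  have h3 := ((h2.smul h1).add ((hasDerivAt_rho hR 0).smul_const v)).const_smul R
  refine h3.congr_deriv ?_
  simp only [zero_mul, neg_zero, zero_smul, zero_add, add_zero, smul_smul, rho_zero hR,
    ← neg_smul]
  congr 1
  field_simp





/-- Recovers `w₁`. -/
noncomputable def W1 (p : E (a + 1 + 6)) : ℂ :=
  zc₁ p * zc₂ p * conj (zc₀ p) * ((cA a * cB a ^ 2 : ℝ) : ℂ)⁻¹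
/-- Recovers `w₂`. -/
noncomputable def W2 (p : E (a + 1 + 6)) : ℂ := zc₁ p * conj (W1 p) ^ T.p * ((cB a : ℝ) : ℂ)⁻¹

theorem mul_conj_one {w : ℂ} (h : ‖w‖ = 1) : w * conj w = 1 := by
  rw [Complex.mul_conj, Complex.normSq_eq_norm_sq, h]
  simp

theorem pow_aux {w : ℂ} (h : ‖w‖ = 1) : w ^ T.p * w ^ T.p * conj w ^ T.r = w := by
  rw [← pow_add, ← two_mul, ← T.two, pow_succ, mul_right_comm, ← mul_pow, mul_conj_one h,
    one_pow, one_mul]

theorem pow_aux' {w : ℂ} (h : ‖w‖ = 1) (n : ℕ) : w ^ n * conj w ^ n = 1 := by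
  rw [← mul_pow, mul_conj_one h, one_pow]

theorem W1_pt (x : E (a + 1)) {w₁ w₂ : ℂ} (h₁ : ‖w₁‖ = 1) (h₂ : ‖w₂‖ = 1) :
    W1 (pt a x w₁ w₂) = w₁ := by
  have e1 := pow_aux h₁
  have e2 := mul_conj_one h₂
  have hA : (cA a : ℂ) ≠ 0 := by exact_mod_cast (cA_pos a).ne'
  have hB : (cB a : ℂ) ≠ 0 := by exact_mod_cast (cB_pos a).ne'
  unfold W1 pt
  simp only [zc₀_mkV, zc₁_mkV, zc₂_mkV, map_mul, map_pow, Complex.conj_ofReal]
  push_cast
  rw [← div_eq_mul_inv, div_eq_iff (mul_ne_zero hA (pow_ne_zero 2 hB))]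
  linear_combination ((cA a : ℂ) * (cB a : ℂ) ^ 2 * (w₂ * conj w₂)) * e1 +
    ((cA a : ℂ) * (cB a : ℂ) ^ 2 * w₁) * e2

theorem W2_pt (x : E (a + 1)) {w₁ w₂ : ℂ} (h₁ : ‖w₁‖ = 1) (h₂ : ‖w₂‖ = 1) :
    W2 (pt a x w₁ w₂) = w₂ := by
  have e1 := pow_aux' h₁ T.p
  have hB : (cB a : ℂ) ≠ 0 := by exact_mod_cast (cB_pos a).ne'
  unfold W2
  rw [W1_pt x h₁ h₂]
  unfold pt
  simp only [zc₁_mkV]
  rw [← div_eq_mul_inv, div_eq_iff hB]
  linear_combination ((cB a : ℂ) * w₂) * e1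

theorem contDiff_W1 {n : WithTop ℕ∞} : ContDiff ℝ n (W1 : E (a + 1 + 6) → ℂ) :=
  ((contDiff_zc₁.mul contDiff_zc₂).mul (contDiff_conj.comp contDiff_zc₀)).mul contDiff_const

theorem contDiff_W2 {n : WithTop ℕ∞} : ContDiff ℝ n (W2 : E (a + 1 + 6) → ℂ) :=
  (contDiff_zc₁.mul ((contDiff_conj.comp contDiff_W1).pow T.p)).mul contDiff_const

theorem hd_pt (x : E (a + 1)) (w₁ w₂ : ℂ) : hd (pt a x w₁ w₂) = cR a • x := by
  unfold pt
  rw [hd_mkV]

/-- The domain of the parametrisation. -/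
def U0 (a : ℕ) : Set (E (a + 2)) :=
  {y | |ka a * y (Fin.natAdd a 0)| < Real.pi ∧ |(T.q : ℝ) * ka a * y (Fin.natAdd a 1)| < Real.pi}

/-- The domain of the inverse. -/
def O0 (b : OrthonormalBasis (Fin (a + 1)) ℝ (E (a + 1))) (w₁ w₂ : ℂ) : Set (E (a + 1 + 6)) :=
  {p | 0 < ⟪b (Fin.last a), hd p⟫ ∧ W1 p * conj w₁ ∈ Complex.slitPlane ∧
    W2 p * conj w₂ ∈ Complex.slitPlane}

/-- The inverse of the parametrisation. -/
noncomputable def inv (b : OrthonormalBasis (Fin (a + 1)) ℝ (E (a + 1))) (w₁ w₂ : ℂ)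
    (p : E (a + 1 + 6)) : E (a + 2) :=
  WithLp.toLp 2 (Fin.append
    (fun i : Fin a => cR a * ⟪b i.castSucc, hd p⟫ * ⟪b (Fin.last a), hd p⟫⁻¹)
    ![(Complex.log (W1 p * conj w₁)).im * (ka a)⁻¹,
      (Complex.log (W2 p * conj w₂)).im * ((T.q : ℝ) * ka a)⁻¹])

theorem inv_left (b : OrthonormalBasis (Fin (a + 1)) ℝ (E (a + 1))) (w₁ w₂ : ℂ)
    (p : E (a + 1 + 6)) (i : Fin a) : inv b w₁ w₂ p (Fin.castAdd 2 i) =
      cR a * ⟪b i.castSucc, hd p⟫ * ⟪b (Fin.last a), hd p⟫⁻¹ := by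
  simp [inv, Fin.append_left]

theorem inv_right (b : OrthonormalBasis (Fin (a + 1)) ℝ (E (a + 1))) (w₁ w₂ : ℂ)
    (p : E (a + 1 + 6)) (j : Fin 2) : inv b w₁ w₂ p (Fin.natAdd a j) =
      ![(Complex.log (W1 p * conj w₁)).im * (ka a)⁻¹,
      (Complex.log (W2 p * conj w₂)).im * ((T.q : ℝ) * ka a)⁻¹] j := by
  simp [inv, Fin.append_right]

theorem isOpen_U0 : IsOpen (U0 a) := by
  have h0 : Continuous fun y : E (a + 2) => y (Fin.natAdd a 0) := (contDiff_coord _).continuous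
  have h1 : Continuous fun y : E (a + 2) => y (Fin.natAdd a 1) := (contDiff_coord _).continuous
  exact (isOpen_lt (continuous_const.mul h0).abs continuous_const).inter
    (isOpen_lt (continuous_const.mul h1).abs continuous_const)

theorem isOpen_O0 (b : OrthonormalBasis (Fin (a + 1)) ℝ (E (a + 1))) (w₁ w₂ : ℂ) :
    IsOpen (O0 b w₁ w₂) := by
  have h0 : Continuous fun p : E (a + 1 + 6) => ⟪b (Fin.last a), hd p⟫ :=
    continuous_const.inner (contDiff_hd (n := 0)).continuous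
  have h1 : Continuous fun p : E (a + 1 + 6) => W1 p * conj w₁ :=
    (contDiff_W1 (n := 0)).continuous.mul continuous_const
  have h2 : Continuous fun p : E (a + 1 + 6) => W2 p * conj w₂ :=
    (contDiff_W2 (n := 0)).continuous.mul continuous_const
  exact (isOpen_lt continuous_const h0).inter
    ((Complex.isOpen_slitPlane.preimage h1).inter (Complex.isOpen_slitPlane.preimage h2))

theorem contDiffAt_logIm {z : ℂ} (hz : z ∈ Complex.slitPlane) :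
    ContDiffAt ℝ ∞ (fun z => (Complex.log z).im) z := by
  have h1 : ContDiffAt ℝ ∞ Complex.log z := (Complex.contDiffAt_log hz).restrict_scalars ℝ
  exact Complex.imCLM.contDiff.contDiffAt.comp z h1

theorem contDiffAt_inv (b : OrthonormalBasis (Fin (a + 1)) ℝ (E (a + 1))) {w₁ w₂ : ℂ}
    {p : E (a + 1 + 6)} (hp : p ∈ O0 b w₁ w₂) : ContDiffAt ℝ ∞ (inv b w₁ w₂) p := by
  rw [contDiffAt_piLp]
  intro i
  refine Fin.addCases (fun i => ?_) (fun j => ?_) i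
  · simp only [inv_left]
    have h0 : ContDiffAt ℝ ∞ (fun p : E (a + 1 + 6) => ⟪b (Fin.last a), hd p⟫) p :=
      (contDiff_const.inner ℝ contDiff_hd).contDiffAt
    have h1 : ContDiffAt ℝ ∞ (fun p : E (a + 1 + 6) => ⟪b i.castSucc, hd p⟫) p :=
      (contDiff_const.inner ℝ contDiff_hd).contDiffAt
    exact (contDiffAt_const.mul h1).mul (h0.inv hp.1.ne')
  · simp only [inv_right]
    have k1 : ContDiffAt ℝ ∞ (fun p : E (a + 1 + 6) => W1 p * conj w₁) p :=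
      (contDiff_W1.mul contDiff_const).contDiffAt
    have k2 : ContDiffAt ℝ ∞ (fun p : E (a + 1 + 6) => W2 p * conj w₂) p :=
      (contDiff_W2.mul contDiff_const).contDiffAt
    have h1 : ContDiffAt ℝ ∞ (fun p : E (a + 1 + 6) => (Complex.log (W1 p * conj w₁)).im) p :=
      ContDiffAt.comp (g := fun z => (Complex.log z).im) p (contDiffAt_logIm hp.2.1) k1
    have h2 : ContDiffAt ℝ ∞ (fun p : E (a + 1 + 6) => (Complex.log (W2 p * conj w₂)).im) p :=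
      ContDiffAt.comp (g := fun z => (Complex.log z).im) p (contDiffAt_logIm hp.2.2) k2
    fin_cases j
    · exact h1.mul contDiffAt_const
    · exact h2.mul contDiffAt_const

theorem inner_b_sph (b : OrthonormalBasis (Fin (a + 1)) ℝ (E (a + 1)))
    (y : E (a + 2)) (i : Fin a) : ⟪b i.castSucc, sph b y⟫ = (√(qf y))⁻¹ * y (Fin.castAdd 2 i) := by
  unfold sph Tm
  rw [inner_smul_right, inner_add_right, inner_sum]
  simp only [inner_smul_right, b.inner_eq_ite]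
  simp [Fin.castSucc_inj, (Fin.castSucc_lt_last i).ne]

theorem inner_last_sph (b : OrthonormalBasis (Fin (a + 1)) ℝ (E (a + 1)))
    (y : E (a + 2)) : ⟪b (Fin.last a), sph b y⟫ = (√(qf y))⁻¹ * cR a := by
  unfold sph Tm
  rw [inner_smul_right, inner_add_right, inner_sum]
  simp only [inner_smul_right, b.inner_eq_ite]
  have : ∀ i : Fin a, ¬ (Fin.last a = i.castSucc) := fun i => (Fin.castSucc_lt_last i).ne'
  simp [this]

theorem log_exp_im {t : ℝ} (ht : |t| < Real.pi) :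
    (Complex.log (Complex.exp ((t : ℝ) * Complex.I))).im = t := by
  rw [abs_lt] at ht
  rw [Complex.log_exp (by simpa using ht.1) (by simpa using ht.2.le)]
  simp

theorem exp_mem_slitPlane {t : ℝ} (ht : |t| < Real.pi) :
    Complex.exp ((t : ℝ) * Complex.I) ∈ Complex.slitPlane := by
  rw [Complex.mem_slitPlane_iff_arg]
  refine ⟨?_, Complex.exp_ne_zero _⟩
  rw [← Complex.log_im, log_exp_im ht]
  exact (abs_lt.mp ht).2.ne

theorem u_mul_conj {w : ℂ} (h : ‖w‖ = 1) (z : ℂ) : w * z * conj w = z := by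
  calc w * z * conj w = z * (w * conj w) := by ring
    _ = z := by rw [mul_conj_one h, mul_one]

theorem par_mem_O0 (ha : 1 ≤ a) (b : OrthonormalBasis (Fin (a + 1)) ℝ (E (a + 1))) {w₁ w₂ : ℂ}
    (h₁ : ‖w₁‖ = 1) (h₂ : ‖w₂‖ = 1) {y : E (a + 2)} (hy : y ∈ U0 a) :
    par b w₁ w₂ y ∈ O0 b w₁ w₂ := by
  refine ⟨?_, ?_, ?_⟩
  · unfold par
    rw [hd_pt, inner_smul_right, inner_last_sph]
    have := cR_pos ha
    have := Real.sqrt_pos.mpr (qf_pos ha y)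
    positivity
  · unfold par
    rw [W1_pt _ (norm_u1 h₁ y) (norm_u2 h₂ y)]
    unfold u1
    rw [u_mul_conj h₁]
    exact exp_mem_slitPlane hy.1
  · unfold par
    rw [W2_pt _ (norm_u1 h₁ y) (norm_u2 h₂ y)]
    unfold u2
    rw [u_mul_conj h₂]
    exact exp_mem_slitPlane hy.2

theorem inv_par (ha : 1 ≤ a) (b : OrthonormalBasis (Fin (a + 1)) ℝ (E (a + 1))) {w₁ w₂ : ℂ}
    (h₁ : ‖w₁‖ = 1) (h₂ : ‖w₂‖ = 1) {y : E (a + 2)} (hy : y ∈ U0 a) :
    inv b w₁ w₂ (par b w₁ w₂ y) = y := by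
  have hR := cR_pos ha
  have hq := Real.sqrt_pos.mpr (qf_pos ha y)
  have hk := ka_pos a
  have hq0 : (T.q : ℝ) ≠ 0 := q_pos.ne'
  ext i
  refine Fin.addCases (fun i => ?_) (fun j => ?_) i
  · rw [inv_left]
    unfold par
    rw [hd_pt, inner_smul_right, inner_smul_right, inner_last_sph, inner_b_sph]
    field_simp
  · rw [inv_right]
    unfold par
    rw [W1_pt _ (norm_u1 h₁ y) (norm_u2 h₂ y), W2_pt _ (norm_u1 h₁ y) (norm_u2 h₂ y)]
    unfold u1 u2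
    rw [u_mul_conj h₁, u_mul_conj h₂, log_exp_im hy.1, log_exp_im hy.2]
    fin_cases j
    · simp
      field_simp
    · simp
      field_simp

theorem exp_log_im {z : ℂ} (hz : ‖z‖ = 1) :
    Complex.exp (((Complex.log z).im : ℝ) * Complex.I) = z := by
  have h0 : z ≠ 0 := by
    rintro rfl
    simp at hz
  have h1 : Complex.log z = ((Complex.log z).im : ℝ) * Complex.I := by
    apply Complex.ext
    · simp [Complex.log_re, hz]
    · simp
  rw [← h1, Complex.exp_log h0]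

theorem par_inv (ha : 1 ≤ a) (b : OrthonormalBasis (Fin (a + 1)) ℝ (E (a + 1))) {w₁ w₂ : ℂ}
    (h₁ : ‖w₁‖ = 1) (h₂ : ‖w₂‖ = 1) {p : E (a + 1 + 6)} (hp : p ∈ Mset a)
    (hpO : p ∈ O0 b w₁ w₂) : par b w₁ w₂ (inv b w₁ w₂ p) = p := by
  obtain ⟨x, v₁, v₂, hx, hv₁, hv₂, rfl⟩ := hp
  have hR := cR_pos ha
  have hk := ka_pos a
  have hq0 : (T.q : ℝ) ≠ 0 := q_pos.ne'
  obtain ⟨hO1, hO2, hO3⟩ := hpO
  rw [hd_pt, inner_smul_right] at hO1
  have hc : 0 < ⟪b (Fin.last a), x⟫ := by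
    by_contra hcon
    push Not at hcon
    nlinarith [mul_nonneg hR.le (neg_nonneg.mpr hcon)]
  set y := inv b w₁ w₂ (pt a x v₁ v₂) with hy
  have hyl : ∀ i : Fin a, y (Fin.castAdd 2 i) =
      cR a * ⟪b (Fin.last a), x⟫⁻¹ * ⟪b i.castSucc, x⟫ := by
    intro i
    rw [hy, inv_left, hd_pt, inner_smul_right, inner_smul_right]
    field_simp
  have hT : Tm b y + cR a • b (Fin.last a) = (cR a * ⟪b (Fin.last a), x⟫⁻¹) • x := by
    have h3 : x = ∑ i : Fin (a + 1), ⟪b i, x⟫ • b i := (b.sum_repr' x).symm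
    rw [Fin.sum_univ_castSucc] at h3
    have h4 : Tm b y + cR a • b (Fin.last a) = (cR a * ⟪b (Fin.last a), x⟫⁻¹) •
        (∑ i : Fin a, ⟪b i.castSucc, x⟫ • b i.castSucc +
          ⟪b (Fin.last a), x⟫ • b (Fin.last a)) := by
      rw [smul_add, Finset.smul_sum]
      unfold Tm
      congr 1
      · refine Finset.sum_congr rfl fun i _ => ?_
        rw [hyl i, smul_smul]
      · rw [smul_smul]
        congr 1
        field_simp
    rw [h4, ← h3]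
  have hq : √(qf y) = cR a * ⟪b (Fin.last a), x⟫⁻¹ := by
    rw [← norm_Tm_sq b y, hT, norm_smul, hx, mul_one, Real.sqrt_sq (norm_nonneg _),
      Real.norm_of_nonneg (by positivity)]
  have hs : sph b y = x := by
    unfold sph
    rw [hT, hq, smul_smul, inv_mul_cancel₀ (by positivity), one_smul]
  have hu1 : u1 w₁ y = v₁ := by
    unfold u1
    have h4 : ka a * y (Fin.natAdd a 0) = (Complex.log (v₁ * conj w₁)).im := by
      rw [hy, inv_right, W1_pt _ hv₁ hv₂]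
      simp
      field_simp
    rw [h4, exp_log_im (by rw [norm_mul, hv₁, RCLike.norm_conj, h₁, one_mul])]
    calc w₁ * (v₁ * conj w₁) = v₁ * (w₁ * conj w₁) := by ring
      _ = v₁ := by rw [mul_conj_one h₁, mul_one]
  have hu2 : u2 w₂ y = v₂ := by
    unfold u2
    have h4 : (T.q : ℝ) * ka a * y (Fin.natAdd a 1) = (Complex.log (v₂ * conj w₂)).im := by
      rw [hy, inv_right, W2_pt _ hv₁ hv₂]
      simp
      field_simp
    rw [h4, exp_log_im (by rw [norm_mul, hv₂, RCLike.norm_conj, h₂, one_mul])]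
    calc w₂ * (v₂ * conj w₂) = v₂ * (w₂ * conj w₂) := by ring
      _ = v₂ := by rw [mul_conj_one h₂, mul_one]
  unfold par
  rw [hs, hu1, hu2]

theorem inv_mem_U0 (b : OrthonormalBasis (Fin (a + 1)) ℝ (E (a + 1))) {w₁ w₂ : ℂ}
    {p : E (a + 1 + 6)} (hpO : p ∈ O0 b w₁ w₂) : inv b w₁ w₂ p ∈ U0 a := by
  have hk := ka_pos a
  have hq0 : (T.q : ℝ) ≠ 0 := q_pos.ne'
  obtain ⟨-, hO2, hO3⟩ := hpO
  have key : ∀ z : ℂ, z ∈ Complex.slitPlane → |(Complex.log z).im| < Real.pi := by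
    intro z hz
    rw [Complex.log_im, abs_lt]
    exact ⟨Complex.neg_pi_lt_arg z, lt_of_le_of_ne (Complex.arg_le_pi z)
      (Complex.mem_slitPlane_iff_arg.mp hz).1⟩
  refine ⟨?_, ?_⟩
  · have : ka a * (inv b w₁ w₂ p) (Fin.natAdd a 0) = (Complex.log (W1 p * conj w₁)).im := by
      rw [inv_right]
      simp
      field_simp
    rw [this]
    exact key _ hO2
  · have : (T.q : ℝ) * ka a * (inv b w₁ w₂ p) (Fin.natAdd a 1) = (Complex.log (W2 p * conj w₂)).im := by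
      rw [inv_right]
      simp
      field_simp
    rw [this]
    exact key _ hO3

theorem isLocalParam_par (ha : 1 ≤ a) (b : OrthonormalBasis (Fin (a + 1)) ℝ (E (a + 1)))
    {w₁ w₂ : ℂ} (h₁ : ‖w₁‖ = 1) (h₂ : ‖w₂‖ = 1) :
    IsLocalParam (Mset a) (U0 a) (par b w₁ w₂) where
  isOpen := isOpen_U0
  smooth := (contDiff_par ha b w₁ w₂).contDiffOn
  immersion := by
    intro y hy
    have hd1 : HasFDerivAt (par b w₁ w₂) (fderiv ℝ (par b w₁ w₂) y) y :=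
      ((contDiff_par ha b w₁ w₂).differentiable (by simp) y).hasFDerivAt
    have hd2 : HasFDerivAt (inv b w₁ w₂) (fderiv ℝ (inv b w₁ w₂) (par b w₁ w₂ y))
        (par b w₁ w₂ y) :=
      ((contDiffAt_inv b (par_mem_O0 ha b h₁ h₂ hy)).differentiableAt (by simp)).hasFDerivAt
    have hd3 := hd2.comp y hd1
    have hd4 : HasFDerivAt (inv b w₁ w₂ ∘ par b w₁ w₂) (ContinuousLinearMap.id ℝ (E (a + 2))) y := by
      refine (hasFDerivAt_id y).congr_of_eventuallyEq ?_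
      filter_upwards [isOpen_U0.mem_nhds hy] with z hz
      exact inv_par ha b h₁ h₂ hz
    have h5 := hd3.unique hd4
    intro u v huv
    have h6 := congrArg (fun L : E (a + 2) →L[ℝ] E (a + 2) => L u) h5
    have h7 := congrArg (fun L : E (a + 2) →L[ℝ] E (a + 2) => L v) h5
    simp only [ContinuousLinearMap.comp_apply, ContinuousLinearMap.id_apply] at h6 h7
    rw [← h6, ← h7, huv]
  injOn := by
    intro y hy z hz hyz
    rw [← inv_par ha b h₁ h₂ hy, ← inv_par ha b h₁ h₂ hz, hyz]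
  relOpen := by
    intro W hWU hW
    refine ⟨O0 b w₁ w₂ ∩ inv b w₁ w₂ ⁻¹' W, ?_, ?_⟩
    · have hc : ContinuousOn (inv b w₁ w₂) (O0 b w₁ w₂) := fun p hp =>
        (contDiffAt_inv b hp).continuousAt.continuousWithinAt
      exact hc.isOpen_inter_preimage (isOpen_O0 b w₁ w₂) hW
    · ext p
      constructor
      · rintro ⟨y, hy, rfl⟩
        refine ⟨par_mem ha b h₁ h₂ y, par_mem_O0 ha b h₁ h₂ (hWU hy), ?_⟩
        rw [Set.mem_preimage, inv_par ha b h₁ h₂ (hWU hy)]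
        exact hy
      · rintro ⟨hpM, hpO, hpW⟩
        exact ⟨_, hpW, par_inv ha b h₁ h₂ hpM hpO⟩

theorem exists_basis (x : E (a + 1)) (hx : ‖x‖ = 1) :
    ∃ b : OrthonormalBasis (Fin (a + 1)) ℝ (E (a + 1)), b (Fin.last a) = x := by
  have h : Orthonormal ℝ (({Fin.last a} : Set (Fin (a + 1))).domRestrict fun _ => x) := by
    constructor
    · intro i
      exact hx
    · intro i j hij
      exact absurd (Subsingleton.elim i j) hij
  obtain ⟨b, hb⟩ := h.exists_orthonormalBasis_extension_of_card_eq (by simp)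
  exact ⟨b, hb _ rfl⟩

theorem par_zero (ha : 1 ≤ a) (b : OrthonormalBasis (Fin (a + 1)) ℝ (E (a + 1))) (w₁ w₂ : ℂ) :
    par b w₁ w₂ 0 = pt a (b (Fin.last a)) w₁ w₂ := by
  have hR := cR_pos ha
  have h1 : sph b (0 : E (a + 2)) = b (Fin.last a) := by
    unfold sph Tm qf
    simp [Real.sqrt_sq hR.le, smul_smul, hR.ne']
  unfold par
  rw [h1]
  simp [u1, u2]

theorem zero_mem_U0 : (0 : E (a + 2)) ∈ U0 a := by
  simp [U0, Real.pi_pos]

theorem exists_par (ha : 1 ≤ a) {p : E (a + 1 + 6)} (hp : p ∈ Mset a) :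
    ∃ (b : OrthonormalBasis (Fin (a + 1)) ℝ (E (a + 1))) (w₁ w₂ : ℂ), ‖w₁‖ = 1 ∧ ‖w₂‖ = 1 ∧
      par b w₁ w₂ 0 = p := by
  obtain ⟨x, v₁, v₂, hx, hv₁, hv₂, rfl⟩ := hp
  obtain ⟨b, rfl⟩ := exists_basis x hx
  exact ⟨b, v₁, v₂, hv₁, hv₂, par_zero ha b v₁ v₂⟩

theorem Mset_eq_image : Mset a = (fun q : E (a + 1) × ℂ × ℂ => pt a q.1 q.2.1 q.2.2) ''
    (Metric.sphere 0 1 ×ˢ (Metric.sphere 0 1 ×ˢ Metric.sphere 0 1)) := by
  ext p
  constructor
  · rintro ⟨x, v₁, v₂, hx, hv₁, hv₂, rfl⟩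
    exact ⟨(x, v₁, v₂), by simp [hx, hv₁, hv₂], rfl⟩
  · rintro ⟨⟨x, v₁, v₂⟩, h, rfl⟩
    simp at h
    exact ⟨x, v₁, v₂, h.1, h.2.1, h.2.2, rfl⟩

theorem isClosedSubmanifold_Mset (ha : 1 ≤ a) : IsClosedSubmanifold (a + 2) (Mset a) := by
  have hc : Continuous (fun q : E (a + 1) × ℂ × ℂ => pt a q.1 q.2.1 q.2.2) :=
    (contDiff_pt contDiff_fst (contDiff_fst.comp contDiff_snd)
      (contDiff_snd.comp contDiff_snd)).continuous
  refine ⟨?_, ?_, ?_⟩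
  · rw [Mset_eq_image]
    exact ((isCompact_sphere _ _).prod ((isCompact_sphere _ _).prod (isCompact_sphere _ _))).image hc
  · rw [Mset_eq_image]
    have hC : IsConnected (Metric.sphere (0 : ℂ) 1) :=
      isConnected_sphere (by rw [Complex.rank_real_complex]; norm_num) 0 zero_le_one
    have hE : IsConnected (Metric.sphere (0 : E (a + 1)) 1) := by
      refine isConnected_sphere ?_ 0 zero_le_one
      rw [← Module.finrank_eq_rank, finrank_euclideanSpace_fin]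
      exact_mod_cast Nat.lt_succ_of_le ha
    exact (hE.prod (hC.prod hC)).image _ hc.continuousOn
  · intro p hp
    obtain ⟨b, w₁, w₂, h₁, h₂, rfl⟩ := exists_par ha hp
    exact ⟨U0 a, par b w₁ w₂, isLocalParam_par ha b h₁ h₂, ⟨0, zero_mem_U0, rfl⟩⟩





/-- The standard basis. -/
noncomputable def eb (a : ℕ) (i : Fin (a + 2)) : E (a + 2) := EuclideanSpace.single i (1 : ℝ)

theorem smul_eb_apply (s : ℝ) (i j : Fin (a + 2)) :
    ((0 : E (a + 2)) + s • eb a i) j = if j = i then s else 0 := by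
  simp [eb]

theorem castAdd_ne_natAdd (i : Fin a) (j : Fin 2) : Fin.castAdd 2 i ≠ Fin.natAdd a j := by
  intro h
  have := congrArg Fin.val h
  simp at this
  omega

/-- First complex coordinate of the point. -/
noncomputable def Z₀ (a : ℕ) (w₁ : ℂ) : ℂ := cA a * w₁ ^ T.r
/-- Second complex coordinate of the point. -/
noncomputable def Z₁ (a : ℕ) (w₁ w₂ : ℂ) : ℂ := cB a * (w₁ ^ T.p * w₂)
/-- Third complex coordinate of the point. -/
noncomputable def Z₂ (a : ℕ) (w₁ w₂ : ℂ) : ℂ := cB a * (w₁ ^ T.p * conj w₂)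

theorem line_left (b : OrthonormalBasis (Fin (a + 1)) ℝ (E (a + 1)))
    (w₁ w₂ : ℂ) (i : Fin a) (s : ℝ) :
    par b w₁ w₂ (0 + s • eb a (Fin.castAdd 2 i)) =
      mkV a (cR a • (rho (cR a) s • (s • b i.castSucc + cR a • b (Fin.last a))))
        (Z₀ a w₁) (Z₁ a w₁ w₂) (Z₂ a w₁ w₂) := by
  have h1 : ∀ j : Fin 2, ((0 : E (a + 2)) + s • eb a (Fin.castAdd 2 i)) (Fin.natAdd a j) = 0 := by
    intro j
    rw [smul_eb_apply, if_neg (castAdd_ne_natAdd i j).symm]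
  have h2 : ∀ j : Fin a, ((0 : E (a + 2)) + s • eb a (Fin.castAdd 2 i)) (Fin.castAdd 2 j) =
      if j = i then s else 0 := by
    intro j
    rw [smul_eb_apply]
    simp
  unfold par pt sph Tm qf u1 u2 rho Z₀ Z₁ Z₂
  simp only [h1, h2]
  simp

theorem line_zero (ha : 1 ≤ a) (b : OrthonormalBasis (Fin (a + 1)) ℝ (E (a + 1)))
    (w₁ w₂ : ℂ) (s : ℝ) :
    par b w₁ w₂ (0 + s • eb a (Fin.natAdd a 0)) =
      osc a (cR a • b (Fin.last a)) (Z₀ a w₁) (Z₁ a w₁ w₂) (Z₂ a w₁ w₂)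
        ((T.r : ℝ) * ka a) ((T.p : ℝ) * ka a) ((T.p : ℝ) * ka a) s := by
  have hR := cR_pos ha
  have h2 : ∀ j : Fin a, ((0 : E (a + 2)) + s • eb a (Fin.natAdd a 0)) (Fin.castAdd 2 j) = 0 := by
    intro j
    rw [smul_eb_apply, if_neg (castAdd_ne_natAdd j 0)]
  have h1 : ((0 : E (a + 2)) + s • eb a (Fin.natAdd a 0)) (Fin.natAdd a 0) = s := by
    rw [smul_eb_apply, if_pos rfl]
  have h3 : ((0 : E (a + 2)) + s • eb a (Fin.natAdd a 0)) (Fin.natAdd a 1) = 0 := by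
    rw [smul_eb_apply, if_neg (by simp)]
  have e1 : ∀ (k : ℕ), Complex.exp (((ka a * s : ℝ) : ℂ) * Complex.I) ^ k =
      Complex.exp ((((k : ℝ) * ka a * s : ℝ) : ℂ) * Complex.I) := by
    intro k
    rw [← Complex.exp_nat_mul]
    congr 1
    push_cast
    ring
  unfold par pt sph Tm qf u1 u2 osc Z₀ Z₁ Z₂
  simp only [h1, h2, h3]
  have e2 : (√(∑ _i : Fin a, (0 : ℝ) ^ 2 + cR a ^ 2))⁻¹ •
      (∑ i : Fin a, (0 : ℝ) • b i.castSucc + cR a • b (Fin.last a)) = b (Fin.last a) := by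
    simp [Real.sqrt_sq hR.le, smul_smul, hR.ne']
  rw [e2]
  have e5 := e1 T.r
  have e3 := e1 T.p
  push_cast at e5 e3
  simp only [mul_pow]
  push_cast
  rw [e5, e3]
  simp only [mul_zero, zero_mul, Complex.exp_zero, mul_one, Complex.ofReal_zero]
  congr 1 <;> ring

theorem line_one (ha : 1 ≤ a) (b : OrthonormalBasis (Fin (a + 1)) ℝ (E (a + 1)))
    (w₁ w₂ : ℂ) (s : ℝ) :
    par b w₁ w₂ (0 + s • eb a (Fin.natAdd a 1)) =
      osc a (cR a • b (Fin.last a)) (Z₀ a w₁) (Z₁ a w₁ w₂) (Z₂ a w₁ w₂)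
        0 ((T.q : ℝ) * ka a) (-((T.q : ℝ) * ka a)) s := by
  have hR := cR_pos ha
  have h2 : ∀ j : Fin a, ((0 : E (a + 2)) + s • eb a (Fin.natAdd a 1)) (Fin.castAdd 2 j) = 0 := by
    intro j
    rw [smul_eb_apply, if_neg (castAdd_ne_natAdd j 1)]
  have h1 : ((0 : E (a + 2)) + s • eb a (Fin.natAdd a 1)) (Fin.natAdd a 1) = s := by
    rw [smul_eb_apply, if_pos rfl]
  have h3 : ((0 : E (a + 2)) + s • eb a (Fin.natAdd a 1)) (Fin.natAdd a 0) = 0 := by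
    rw [smul_eb_apply, if_neg (by simp)]
  unfold par pt sph Tm qf u1 u2 osc Z₀ Z₁ Z₂
  simp only [h1, h2, h3]
  have e2 : (√(∑ _i : Fin a, (0 : ℝ) ^ 2 + cR a ^ 2))⁻¹ •
      (∑ i : Fin a, (0 : ℝ) • b i.castSucc + cR a • b (Fin.last a)) = b (Fin.last a) := by
    simp [Real.sqrt_sq hR.le, smul_smul, hR.ne']
  rw [e2]
  have e3 : conj (Complex.exp ((((T.q : ℝ) * ka a * s : ℝ) : ℂ) * Complex.I)) =
      Complex.exp (((-((T.q : ℝ) * ka a) * s : ℝ) : ℂ) * Complex.I) := by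
    rw [← Complex.exp_conj, map_mul, Complex.conj_ofReal, Complex.conj_I]
    congr 1
    push_cast
    ring
  rw [map_mul, e3]
  simp only [mul_zero, zero_mul, Complex.exp_zero, mul_one, Complex.ofReal_zero]
  congr 1 <;> ring

theorem contDiffAt_par (ha : 1 ≤ a) (b : OrthonormalBasis (Fin (a + 1)) ℝ (E (a + 1)))
    (w₁ w₂ : ℂ) (y : E (a + 2)) : ContDiffAt ℝ 2 (par b w₁ w₂) y :=
  ((contDiff_par ha b w₁ w₂).of_le le_two).contDiffAt

theorem deriv_left (ha : 1 ≤ a) (b : OrthonormalBasis (Fin (a + 1)) ℝ (E (a + 1)))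
    (w₁ w₂ : ℂ) (i : Fin a) :
    fderiv ℝ (par b w₁ w₂) 0 (eb a (Fin.castAdd 2 i)) = mkV a (b i.castSucc) 0 0 0 ∧
    D2 (par b w₁ w₂) 0 (eb a (Fin.castAdd 2 i)) (eb a (Fin.castAdd 2 i)) =
      mkV a (-((cR a)⁻¹ • b (Fin.last a))) 0 0 0 := by
  have hR := cR_pos ha
  have h1 : ∀ t : ℝ, HasDerivAt (fun s : ℝ => par b w₁ w₂ (0 + s • eb a (Fin.castAdd 2 i)))
      (mkV a (cR a • (-(t * rho (cR a) t ^ 3) • (t • b i.castSucc + cR a • b (Fin.last a)) +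
        rho (cR a) t • b i.castSucc)) 0 0 0) t := by
    intro t
    simp only [line_left]
    exact hasDerivAt_mkV (hasDerivAt_sphC hR _ _ t) (hasDerivAt_const t _)
      (hasDerivAt_const t _) (hasDerivAt_const t _)
  have h2 := hasDerivAt_mkV (a := a) (hasDerivAt_sphC' hR (b i.castSucc) (b (Fin.last a)))
    (hasDerivAt_const (0 : ℝ) (0 : ℂ)) (hasDerivAt_const (0 : ℝ) (0 : ℂ))
    (hasDerivAt_const (0 : ℝ) (0 : ℂ))
  obtain ⟨h3, h4⟩ := D2_of_curve (contDiffAt_par ha b w₁ w₂ 0) h1 h2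
  refine ⟨?_, h4⟩
  rw [h3]
  simp [rho_zero hR, smul_smul, hR.ne']

theorem deriv_zero (ha : 1 ≤ a) (b : OrthonormalBasis (Fin (a + 1)) ℝ (E (a + 1)))
    (w₁ w₂ : ℂ) :
    fderiv ℝ (par b w₁ w₂) 0 (eb a (Fin.natAdd a 0)) =
      mkV a 0 (((T.r : ℝ) * ka a : ℝ) * Complex.I * Z₀ a w₁) (((T.p : ℝ) * ka a : ℝ) * Complex.I * Z₁ a w₁ w₂)
        (((T.p : ℝ) * ka a : ℝ) * Complex.I * Z₂ a w₁ w₂) ∧
    D2 (par b w₁ w₂) 0 (eb a (Fin.natAdd a 0)) (eb a (Fin.natAdd a 0)) =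
      mkV a 0 (((T.r : ℝ) * ka a : ℝ) * Complex.I * (((T.r : ℝ) * ka a : ℝ) * Complex.I * Z₀ a w₁))
        (((T.p : ℝ) * ka a : ℝ) * Complex.I * (((T.p : ℝ) * ka a : ℝ) * Complex.I * Z₁ a w₁ w₂))
        (((T.p : ℝ) * ka a : ℝ) * Complex.I * (((T.p : ℝ) * ka a : ℝ) * Complex.I * Z₂ a w₁ w₂)) := by
  have h1 : ∀ t : ℝ, HasDerivAt (fun s : ℝ => par b w₁ w₂ (0 + s • eb a (Fin.natAdd a 0)))
      (osc a 0 (((T.r : ℝ) * ka a : ℝ) * Complex.I * Z₀ a w₁)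
        (((T.p : ℝ) * ka a : ℝ) * Complex.I * Z₁ a w₁ w₂) (((T.p : ℝ) * ka a : ℝ) * Complex.I * Z₂ a w₁ w₂)
        ((T.r : ℝ) * ka a) ((T.p : ℝ) * ka a) ((T.p : ℝ) * ka a) t) t := by
    intro t
    simp only [line_zero ha]
    exact hasDerivAt_oscC _ _ _ _ _ _ _ t
  have h2 := hasDerivAt_oscC (a := a) 0 (((T.r : ℝ) * ka a : ℝ) * Complex.I * Z₀ a w₁)
    (((T.p : ℝ) * ka a : ℝ) * Complex.I * Z₁ a w₁ w₂) (((T.p : ℝ) * ka a : ℝ) * Complex.I * Z₂ a w₁ w₂)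
    ((T.r : ℝ) * ka a) ((T.p : ℝ) * ka a) ((T.p : ℝ) * ka a) 0
  obtain ⟨h3, h4⟩ := D2_of_curve (contDiffAt_par ha b w₁ w₂ 0) h1 h2
  rw [osc_zero] at h3 h4
  exact ⟨h3, h4⟩

theorem deriv_one (ha : 1 ≤ a) (b : OrthonormalBasis (Fin (a + 1)) ℝ (E (a + 1)))
    (w₁ w₂ : ℂ) :
    fderiv ℝ (par b w₁ w₂) 0 (eb a (Fin.natAdd a 1)) =
      mkV a 0 ((0 : ℝ) * Complex.I * Z₀ a w₁) (((T.q : ℝ) * ka a : ℝ) * Complex.I * Z₁ a w₁ w₂)
        ((-((T.q : ℝ) * ka a) : ℝ) * Complex.I * Z₂ a w₁ w₂) ∧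
    D2 (par b w₁ w₂) 0 (eb a (Fin.natAdd a 1)) (eb a (Fin.natAdd a 1)) =
      mkV a 0 ((0 : ℝ) * Complex.I * ((0 : ℝ) * Complex.I * Z₀ a w₁))
        (((T.q : ℝ) * ka a : ℝ) * Complex.I * (((T.q : ℝ) * ka a : ℝ) * Complex.I * Z₁ a w₁ w₂))
        ((-((T.q : ℝ) * ka a) : ℝ) * Complex.I * ((-((T.q : ℝ) * ka a) : ℝ) * Complex.I * Z₂ a w₁ w₂)) := by
  have h1 : ∀ t : ℝ, HasDerivAt (fun s : ℝ => par b w₁ w₂ (0 + s • eb a (Fin.natAdd a 1)))
      (osc a 0 ((0 : ℝ) * Complex.I * Z₀ a w₁)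
        (((T.q : ℝ) * ka a : ℝ) * Complex.I * Z₁ a w₁ w₂) ((-((T.q : ℝ) * ka a) : ℝ) * Complex.I * Z₂ a w₁ w₂)
        0 ((T.q : ℝ) * ka a) (-((T.q : ℝ) * ka a)) t) t := by
    intro t
    simp only [line_one ha]
    exact hasDerivAt_oscC _ _ _ _ _ _ _ t
  have h2 := hasDerivAt_oscC (a := a) 0 ((0 : ℝ) * Complex.I * Z₀ a w₁)
    (((T.q : ℝ) * ka a : ℝ) * Complex.I * Z₁ a w₁ w₂) ((-((T.q : ℝ) * ka a) : ℝ) * Complex.I * Z₂ a w₁ w₂)
    0 ((T.q : ℝ) * ka a) (-((T.q : ℝ) * ka a)) 0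
  obtain ⟨h3, h4⟩ := D2_of_curve (contDiffAt_par ha b w₁ w₂ 0) h1 h2
  rw [osc_zero] at h3 h4
  exact ⟨h3, h4⟩

theorem normSq_Z₀ {w₁ : ℂ} (h₁ : ‖w₁‖ = 1) : Z₀ a w₁ * conj (Z₀ a w₁) = ((cA a ^ 2 : ℝ) : ℂ) := by
  unfold Z₀
  simp only [map_mul, map_pow, Complex.conj_ofReal]
  calc _ = (cA a : ℂ) ^ 2 * (w₁ * conj w₁) ^ T.r := by ring
    _ = _ := by rw [mul_conj_one h₁]; push_cast; ring

theorem normSq_Z₁ {w₁ w₂ : ℂ} (h₁ : ‖w₁‖ = 1) (h₂ : ‖w₂‖ = 1) :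
    Z₁ a w₁ w₂ * conj (Z₁ a w₁ w₂) = ((cB a ^ 2 : ℝ) : ℂ) := by
  unfold Z₁
  simp only [map_mul, map_pow, Complex.conj_ofReal]
  calc _ = (cB a : ℂ) ^ 2 * (w₁ * conj w₁) ^ T.p * (w₂ * conj w₂) := by ring
    _ = _ := by rw [mul_conj_one h₁, mul_conj_one h₂]; push_cast; ring

theorem normSq_Z₂ {w₁ w₂ : ℂ} (h₁ : ‖w₁‖ = 1) (h₂ : ‖w₂‖ = 1) :
    Z₂ a w₁ w₂ * conj (Z₂ a w₁ w₂) = ((cB a ^ 2 : ℝ) : ℂ) := by
  unfold Z₂
  simp only [map_mul, map_pow, Complex.conj_ofReal, Complex.conj_conj]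
  calc _ = (cB a : ℂ) ^ 2 * (w₁ * conj w₁) ^ T.p * (w₂ * conj w₂) := by ring
    _ = _ := by rw [mul_conj_one h₁, mul_conj_one h₂]; push_cast; ring

theorem re_aux (r s : ℝ) {z : ℂ} {c : ℝ} (h : z * conj z = (c : ℂ)) :
    ((r : ℂ) * Complex.I * z * conj ((s : ℂ) * Complex.I * z)).re = r * s * c := by
  have : (r : ℂ) * Complex.I * z * conj ((s : ℂ) * Complex.I * z) = ((r * s * c : ℝ) : ℂ) := by
    simp only [map_mul, Complex.conj_ofReal, Complex.conj_I]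
    calc _ = -(r : ℂ) * s * (Complex.I * Complex.I) * (z * conj z) := by ring
      _ = _ := by rw [h, Complex.I_mul_I]; push_cast; ring
  rw [this, Complex.ofReal_re]

theorem re_aux' (s : ℝ) {z : ℂ} {c : ℝ} (h : z * conj z = (c : ℂ)) :
    (z * conj ((s : ℂ) * Complex.I * z)).re = 0 := by
  have : z * conj ((s : ℂ) * Complex.I * z) = ((-(s * c) : ℝ) : ℂ) * Complex.I := by
    simp only [map_mul, Complex.conj_ofReal, Complex.conj_I]
    calc _ = -(s : ℂ) * Complex.I * (z * conj z) := by ring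
      _ = _ := by rw [h]; push_cast; ring
  rw [this]
  simp

theorem id₁ (a : ℕ) : (T.r : ℝ) * ka a * ((T.r : ℝ) * ka a) * cA a ^ 2 +
    (T.p : ℝ) * ka a * ((T.p : ℝ) * ka a) * cB a ^ 2 +
    (T.p : ℝ) * ka a * ((T.p : ℝ) * ka a) * cB a ^ 2 = 1 := by
  have h := dd_pos a
  have hq := q_pos (T := T)
  have hr := r_pos (T := T)
  have : (T.r : ℝ) * ka a * ((T.r : ℝ) * ka a) * cA a ^ 2 +
    (T.p : ℝ) * ka a * ((T.p : ℝ) * ka a) * cB a ^ 2 +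
    (T.p : ℝ) * ka a * ((T.p : ℝ) * ka a) * cB a ^ 2 =
    (T.r : ℝ) ^ 2 * ka a ^ 2 * cA a ^ 2 + 2 * (T.p : ℝ) ^ 2 * ka a ^ 2 * cB a ^ 2 := by ring
  rw [this, ka_sq, cA_sq, cB_sq]
  field_simp
  ring

theorem id₂ (a : ℕ) : (T.q : ℝ) * ka a * ((T.q : ℝ) * ka a) * cB a ^ 2 +
    -((T.q : ℝ) * ka a) * -((T.q : ℝ) * ka a) * cB a ^ 2 = 1 := by
  have h := dd_pos a
  have hq := q_pos (T := T)
  have hr := r_pos (T := T)
  have : (T.q : ℝ) * ka a * ((T.q : ℝ) * ka a) * cB a ^ 2 +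
    -((T.q : ℝ) * ka a) * -((T.q : ℝ) * ka a) * cB a ^ 2 =
    2 * (T.q : ℝ) ^ 2 * ka a ^ 2 * cB a ^ 2 := by ring
  rw [this, ka_sq, cB_sq]
  field_simp

theorem sum_one (a : ℕ) : cR a ^ 2 + cA a ^ 2 + 2 * cB a ^ 2 = 1 := by
  have h := dd_pos a
  have hq := q_pos (T := T)
  have hr := r_sq (T := T)
  rw [cR_sq, cA_sq, cB_sq, hr]
  have h' : (a : ℝ) = dd a - 2 := by unfold dd; ring
  rw [h']
  field_simp
  ring

theorem isFrame_par (ha : 1 ≤ a) (b : OrthonormalBasis (Fin (a + 1)) ℝ (E (a + 1)))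
    {w₁ w₂ : ℂ} (h₁ : ‖w₁‖ = 1) (h₂ : ‖w₂‖ = 1) :
    IsFrame (par b w₁ w₂) 0 (eb a) := by
  have n0 := normSq_Z₀ (a := a) h₁
  have n1 := normSq_Z₁ (a := a) h₁ h₂
  have n2 := normSq_Z₂ (a := a) h₁ h₂
  have c00 : ⟪fderiv ℝ (par b w₁ w₂) 0 (eb a (Fin.natAdd a 0)),
      fderiv ℝ (par b w₁ w₂) 0 (eb a (Fin.natAdd a 0))⟫ = 1 := by
    rw [(deriv_zero ha b w₁ w₂).1, inner_mkV, re_aux _ _ n0, re_aux _ _ n1, re_aux _ _ n2,
      inner_zero_left, zero_add, id₁]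
  have c11 : ⟪fderiv ℝ (par b w₁ w₂) 0 (eb a (Fin.natAdd a 1)),
      fderiv ℝ (par b w₁ w₂) 0 (eb a (Fin.natAdd a 1))⟫ = 1 := by
    rw [(deriv_one ha b w₁ w₂).1, inner_mkV, re_aux _ _ n0, re_aux _ _ n1, re_aux _ _ n2,
      inner_zero_left, ← id₂ a]
    ring
  have c01 : ⟪fderiv ℝ (par b w₁ w₂) 0 (eb a (Fin.natAdd a 0)),
      fderiv ℝ (par b w₁ w₂) 0 (eb a (Fin.natAdd a 1))⟫ = 0 := by
    rw [(deriv_zero ha b w₁ w₂).1, (deriv_one ha b w₁ w₂).1, inner_mkV, re_aux _ _ n0,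
      re_aux _ _ n1, re_aux _ _ n2, inner_zero_left]
    ring
  have cl : ∀ i k : Fin a, ⟪fderiv ℝ (par b w₁ w₂) 0 (eb a (Fin.castAdd 2 i)),
      fderiv ℝ (par b w₁ w₂) 0 (eb a (Fin.castAdd 2 k))⟫ = if i = k then 1 else 0 := by
    intro i k
    rw [(deriv_left ha b w₁ w₂ i).1, (deriv_left ha b w₁ w₂ k).1, inner_mkV, b.inner_eq_ite]
    simp
  have c0l : ∀ i : Fin a, ⟪fderiv ℝ (par b w₁ w₂) 0 (eb a (Fin.castAdd 2 i)),
      fderiv ℝ (par b w₁ w₂) 0 (eb a (Fin.natAdd a 0))⟫ = 0 := by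
    intro i
    rw [(deriv_left ha b w₁ w₂ i).1, (deriv_zero ha b w₁ w₂).1, inner_mkV]
    simp
  have c1l : ∀ i : Fin a, ⟪fderiv ℝ (par b w₁ w₂) 0 (eb a (Fin.castAdd 2 i)),
      fderiv ℝ (par b w₁ w₂) 0 (eb a (Fin.natAdd a 1))⟫ = 0 := by
    intro i
    rw [(deriv_left ha b w₁ w₂ i).1, (deriv_one ha b w₁ w₂).1, inner_mkV]
    simp
  unfold IsFrame
  rw [orthonormal_iff_ite]
  intro i k
  refine Fin.addCases (fun i => ?_) (fun i => ?_) i <;>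
    refine Fin.addCases (fun k => ?_) (fun k => ?_) k
  · rw [cl i k]
    simp
  · rw [if_neg (castAdd_ne_natAdd i k)]
    fin_cases k
    · exact c0l i
    · exact c1l i
  · rw [if_neg (castAdd_ne_natAdd k i).symm, real_inner_comm]
    fin_cases i
    · exact c0l k
    · exact c1l k
  · fin_cases i <;> fin_cases k
    · simpa using c00
    · simpa using c01
    · rw [real_inner_comm]
      simpa using c01
    · simpa using c11

theorem mkV_zero : mkV a 0 0 0 0 = 0 := by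
  have := mkV_smul (a := a) 0 0 0 0 0
  simpa using this

theorem mkV_sum {ι : Type*} (s : Finset ι) (f : ι → E (a + 1)) :
    mkV a (∑ i ∈ s, f i) 0 0 0 = ∑ i ∈ s, mkV a (f i) 0 0 0 := by
  have h : ∀ x : E (a + 1), mkV a x 0 0 0 = mkL a (x, 0, 0, 0) := fun x => rfl
  have h' : (∑ i ∈ s, f i, (0 : ℂ), (0 : ℂ), (0 : ℂ)) =
      ∑ i ∈ s, ((f i, 0, 0, 0) : E (a + 1) × ℂ × ℂ × ℂ) := by
    simp [Prod.ext_iff, Prod.fst_sum, Prod.snd_sum]
  rw [h, h', map_sum]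
  rfl

theorem par_zero' (ha : 1 ≤ a) (b : OrthonormalBasis (Fin (a + 1)) ℝ (E (a + 1))) (w₁ w₂ : ℂ) :
    par b w₁ w₂ 0 = mkV a (cR a • b (Fin.last a)) (Z₀ a w₁) (Z₁ a w₁ w₂) (Z₂ a w₁ w₂) := by
  rw [par_zero ha]
  rfl

theorem traceD2_par (ha : 1 ≤ a) (b : OrthonormalBasis (Fin (a + 1)) ℝ (E (a + 1)))
    (w₁ w₂ : ℂ) : traceD2 (par b w₁ w₂) 0 (eb a) = (-dd a) • par b w₁ w₂ 0 := by
  have hR := cR_pos ha
  have hd := dd_pos a
  have hk := ka_sq a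
  have hk1 : (T.r : ℝ) ^ 2 * ka a ^ 2 = dd a := by
    rw [hk]
    have hr := r_pos (T := T)
    field_simp
  have hk' : (T.r : ℂ) ^ 2 * (ka a : ℂ) ^ 2 = (dd a : ℂ) := by exact_mod_cast hk1
  have hpq : (T.p : ℂ) ^ 2 + (T.q : ℂ) ^ 2 = (T.r : ℂ) ^ 2 := by exact_mod_cast T.sq
  unfold traceD2
  rw [Fin.sum_univ_add, Fin.sum_univ_two, (deriv_zero ha b w₁ w₂).2, (deriv_one ha b w₁ w₂).2]
  simp only [fun i => (deriv_left ha b w₁ w₂ i).2]
  rw [← mkV_sum, ← mkV_add, ← mkV_add, par_zero' ha, ← mkV_smul]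
  have hI := Complex.I_mul_I
  congr 1
  · rw [Finset.sum_const, Finset.card_univ, Fintype.card_fin, add_zero, add_zero,
      ← Nat.cast_smul_eq_nsmul ℝ, smul_neg, smul_smul, smul_smul, ← neg_smul]
    congr 1
    have h1 := cR_sq a
    have h2 : (a : ℝ) = dd a * cR a ^ 2 := by
      rw [h1]
      field_simp
    rw [h2]
    field_simp
  · simp only [zero_add, Complex.real_smul]
    push_cast
    linear_combination ((T.r : ℂ) ^ 2 * Z₀ a w₁ * ka a ^ 2) * hI - Z₀ a w₁ * hk'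
  · simp only [zero_add, Complex.real_smul]
    push_cast
    linear_combination ((T.r : ℂ) ^ 2 * Z₁ a w₁ w₂ * ka a ^ 2) * hI - Z₁ a w₁ w₂ * hk' +
      ((ka a : ℂ) ^ 2 * Complex.I ^ 2 * Z₁ a w₁ w₂) * hpq
  · simp only [zero_add, Complex.real_smul]
    push_cast
    linear_combination ((T.r : ℂ) ^ 2 * Z₂ a w₁ w₂ * ka a ^ 2) * hI - Z₂ a w₁ w₂ * hk' +
      ((ka a : ℂ) ^ 2 * Complex.I ^ 2 * Z₂ a w₁ w₂) * hpq

theorem norm_pt {x : E (a + 1)} {w₁ w₂ : ℂ} (hx : ‖x‖ = 1)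
    (h₁ : ‖w₁‖ = 1) (h₂ : ‖w₂‖ = 1) : ‖pt a x w₁ w₂‖ = 1 := by
  have n0 := normSq_Z₀ (a := a) h₁
  have n1 := normSq_Z₁ (a := a) h₁ h₂
  have n2 := normSq_Z₂ (a := a) h₁ h₂
  have hd := dd_pos a
  have h : ‖pt a x w₁ w₂‖ ^ 2 = 1 := by
    rw [← real_inner_self_eq_norm_sq]
    change ⟪mkV a (cR a • x) (Z₀ a w₁) (Z₁ a w₁ w₂) (Z₂ a w₁ w₂),
      mkV a (cR a • x) (Z₀ a w₁) (Z₁ a w₁ w₂) (Z₂ a w₁ w₂)⟫ = 1
    rw [inner_mkV, n0, n1, n2, inner_smul_left, inner_smul_right, real_inner_self_eq_norm_sq, hx]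
    simp only [Complex.ofReal_re, conj_trivial]
    have : cR a * (cR a * 1 ^ 2) = cR a ^ 2 := by ring
    rw [this]
    linear_combination sum_one a
  have h0 := norm_nonneg (pt a x w₁ w₂)
  nlinarith

theorem isMinimal_Mset (ha : 1 ≤ a) : IsMinimalInSphere (a + 2) (Mset a) := by
  refine ⟨?_, ?_⟩
  · rintro p ⟨x, v₁, v₂, hx, hv₁, hv₂, rfl⟩
    simpa using norm_pt hx hv₁ hv₂
  · intro U φ hφ x hx u hu
    obtain ⟨b, w₁, w₂, h₁, h₂, hp⟩ := exists_par ha (hφ.mapsTo hx)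
    refine minimal_transfer hφ (isLocalParam_par ha b h₁ h₂) hx zero_mem_U0 hp.symm hu
      (isFrame_par ha b h₁ h₂) ?_
    rw [traceD2_par ha]
    exact Submodule.smul_mem _ _ (Submodule.subset_span (Or.inr rfl))

/-- The eigenfunction. -/
noncomputable def ef (p : E (a + 1 + 6)) : ℝ := (W1 p).re

theorem contDiff_ef : ContDiff ℝ ∞ (ef : E (a + 1 + 6) → ℝ) :=
  Complex.reCLM.contDiff.comp contDiff_W1

theorem ef_par (ha : 1 ≤ a) (b : OrthonormalBasis (Fin (a + 1)) ℝ (E (a + 1))) {w₁ w₂ : ℂ}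
    (h₁ : ‖w₁‖ = 1) (h₂ : ‖w₂‖ = 1) (y : E (a + 2)) :
    (ef ∘ par b w₁ w₂) y = (u1 w₁ y).re := by
  simp only [Function.comp, ef, par]
  rw [W1_pt _ (norm_u1 h₁ y) (norm_u2 h₂ y)]

theorem laplace_par (ha : 1 ≤ a) (b : OrthonormalBasis (Fin (a + 1)) ℝ (E (a + 1)))
    {w₁ w₂ : ℂ} (h₁ : ‖w₁‖ = 1) (h₂ : ‖w₂‖ = 1) :
    laplaceBeltrami (par b w₁ w₂) (ef ∘ par b w₁ w₂) 0 (eb a) =
      -(ka a ^ 2 * ef (par b w₁ w₂ 0)) := by
  have n0 := normSq_Z₀ (a := a) h₁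
  have n1 := normSq_Z₁ (a := a) h₁ h₂
  have n2 := normSq_Z₂ (a := a) h₁ h₂
  have hperp : ∀ k, ⟪traceD2 (par b w₁ w₂) 0 (eb a), fderiv ℝ (par b w₁ w₂) 0 (eb a k)⟫ = 0 := by
    intro k
    rw [traceD2_par ha, inner_smul_left]
    have : ⟪par b w₁ w₂ 0, fderiv ℝ (par b w₁ w₂) 0 (eb a k)⟫ = 0 := by
      rw [par_zero' ha]
      refine Fin.addCases (fun k => ?_) (fun k => ?_) k
      · rw [(deriv_left ha b w₁ w₂ k).1, inner_mkV, inner_smul_left, b.inner_eq_ite,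
          if_neg (Fin.castSucc_lt_last k).ne']
        simp
      · fin_cases k
        · have := (deriv_zero ha b w₁ w₂).1
          simp only [Fin.zero_eta]
          rw [this, inner_mkV, re_aux' _ n0, re_aux' _ n1, re_aux' _ n2, inner_zero_right]
          ring
        · have := (deriv_one ha b w₁ w₂).1
          simp only [Fin.mk_one]
          rw [this, inner_mkV, re_aux' _ n0, re_aux' _ n1, re_aux' _ n2, inner_zero_right]
          ring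
    rw [this, mul_zero]
  have hc : ContDiffAt ℝ 2 (ef ∘ par b w₁ w₂) 0 :=
    ((contDiff_ef.comp (contDiff_par ha b w₁ w₂)).of_le le_two).contDiffAt
  have hfl : ∀ (i : Fin (a + 2)), i ≠ Fin.natAdd a 0 →
      D2 (ef ∘ par b w₁ w₂) 0 (eb a i) (eb a i) = 0 := by
    intro i hi
    have e1 : ∀ t : ℝ, HasDerivAt (fun s : ℝ => (ef ∘ par b w₁ w₂) (0 + s • eb a i)) 0 t := by
      intro t
      have : (fun s : ℝ => (ef ∘ par b w₁ w₂) (0 + s • eb a i)) = fun _ => w₁.re := by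
        funext s
        rw [ef_par ha b h₁ h₂]
        unfold u1
        rw [smul_eb_apply, if_neg hi.symm]
        simp
      rw [this]
      exact hasDerivAt_const t _
    exact (D2_of_curve hc e1 (hasDerivAt_const (0 : ℝ) (0 : ℝ))).2
  have hf0 : D2 (ef ∘ par b w₁ w₂) 0 (eb a (Fin.natAdd a 0)) (eb a (Fin.natAdd a 0)) =
      -(ka a ^ 2 * w₁.re) := by
    have hosc := fun (Z : ℂ) (t : ℝ) => hasDerivAt_osc Z (ka a) t
    have e1 : ∀ t : ℝ, HasDerivAt (fun s : ℝ => (ef ∘ par b w₁ w₂)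
        (0 + s • eb a (Fin.natAdd a 0)))
        (((ka a : ℂ) * Complex.I * w₁) * Complex.exp ((ka a * t : ℝ) * Complex.I)).re t := by
      intro t
      have h3 : (fun s : ℝ => (ef ∘ par b w₁ w₂) (0 + s • eb a (Fin.natAdd a 0))) =
          fun s : ℝ => (w₁ * Complex.exp ((ka a * s : ℝ) * Complex.I)).re := by
        funext s
        rw [ef_par ha b h₁ h₂]
        unfold u1
        rw [smul_eb_apply, if_pos rfl]
      rw [h3]
      exact Complex.reCLM.hasFDerivAt.comp_hasDerivAt t (hosc w₁ t)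
    have e2 : HasDerivAt (fun t : ℝ =>
        (((ka a : ℂ) * Complex.I * w₁) * Complex.exp ((ka a * t : ℝ) * Complex.I)).re)
        (((ka a : ℂ) * Complex.I * ((ka a : ℂ) * Complex.I * w₁)) *
          Complex.exp ((ka a * (0 : ℝ) : ℝ) * Complex.I)).re 0 :=
      Complex.reCLM.hasFDerivAt.comp_hasDerivAt 0 (hosc _ 0)
    rw [(D2_of_curve hc e1 e2).2]
    have : ((ka a : ℂ) * Complex.I * ((ka a : ℂ) * Complex.I * w₁)) *
          Complex.exp ((ka a * (0 : ℝ) : ℝ) * Complex.I) = ((-(ka a ^ 2) : ℝ) : ℂ) * w₁ := by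
      simp only [mul_zero, Complex.ofReal_zero, zero_mul, Complex.exp_zero, mul_one]
      push_cast
      linear_combination ((ka a : ℂ) ^ 2 * w₁) * Complex.I_mul_I
    rw [this, Complex.re_ofReal_mul]
    ring
  unfold laplaceBeltrami
  simp only [hperp, zero_mul, Finset.sum_const_zero, sub_zero]
  unfold traceD2
  rw [Finset.sum_eq_single (Fin.natAdd a 0) (fun i _ hi => hfl i hi) (by simp), hf0]
  have : ef (par b w₁ w₂ 0) = w₁.re := by
    have h4 := ef_par ha b h₁ h₂ (0 : E (a + 2))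
    simp only [Function.comp] at h4
    rw [h4]
    simp [u1]
  rw [this]

theorem isEigenvalue_Mset (ha : 1 ≤ a) : IsEigenvalue (a + 2) (Mset a) (((a : ℝ) + 2) / (T.r : ℝ) ^ 2) := by
  refine ⟨ef, ?_, ?_, ?_⟩
  · intro U φ hφ
    exact contDiff_ef.comp_contDiffOn hφ.smooth
  · refine ⟨pt a (EuclideanSpace.single (Fin.last a) 1) 1 1,
      ⟨_, 1, 1, by simp, by simp, by simp, rfl⟩, ?_⟩
    unfold ef
    rw [W1_pt _ (by simp) (by simp)]
    simp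
  · intro U φ hφ x hx u hu
    obtain ⟨b, w₁, w₂, h₁, h₂, hp⟩ := exists_par ha (hφ.mapsTo hx)
    rw [laplace_transfer hφ (isLocalParam_par ha b h₁ h₂) hx zero_mem_U0 hp.symm hu
      (isFrame_par ha b h₁ h₂) (contDiff_ef.comp (contDiff_par ha b w₁ w₂)).contDiffAt,
      laplace_par ha b h₁ h₂, ka_sq, hp]
    rfl


end Pool.Agent.Y767.MT
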